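import Pool.Agent.Helper77.RL.Goals
import Pool.Agent.Helper88.RD.SLG

/-!
# Project RL (MP_fc6b1e_nt), packet RL-SUB: the Selmer group of a datum over `M'` is a subgroup
-/

namespace Pool.Agent.Helper95.RL

open NumberField Polynomial Module IsDedekindDomain Pool.Agent.Helper51.SigLeo
open Pool.Agent.Helper51.RP Pool.Agent.Helper77.RL
open Pool.Agent.Helper90.RP (exists_pull loc_pow loc_one loc_inv loc_mul loc_delta)
open Pool.Agent.Helper88.RD (ordv_mul ordv_inv ordv_one ordv_pow locPow_mul locPow_pow locPow_inv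
  locPow_mul_pow)

section primes

variable {M M' : Type} [Field M] [NumberField M] [Field M'] [NumberField M'] [Algebra M M']

/-- Every prime of `M'` is above a prime of `M`. -/
theorem exists_below (W : HeightOneSpectrum (𝓞 M')) :
    ∃ v : HeightOneSpectrum (𝓞 M), Above W v := by
  have hint : Algebra.IsIntegral (𝓞 M) (𝓞 M') := inferInstance
  obtain ⟨x, hx, hx0⟩ := Submodule.exists_mem_ne_zero_of_ne_bot W.ne_bot
  have hne : W.asIdeal.comap (algebraMap (𝓞 M) (𝓞 M')) ≠ ⊥ :=
    Ideal.comap_ne_bot_of_integral_mem hx0 hx (hint.isIntegral x)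
  exact ⟨⟨W.asIdeal.comap (algebraMap (𝓞 M) (𝓞 M')), Ideal.IsPrime.comap _, hne⟩, rfl⟩

/-- Conjugate primes over `M` are above the same prime. -/
theorem above_pull (g : M' ≃ₐ[M] M') {W W' : HeightOneSpectrum (𝓞 M')}
    (h : ∀ y : M', W.valuation M' (g y) = W'.valuation M' y)
    {v : HeightOneSpectrum (𝓞 M)} (hW : Above W v) : Above W' v := by
  unfold Above at hW ⊢
  rw [← hW]
  ext y
  rw [Ideal.mem_comap, Ideal.mem_comap]
  have e1 : ∀ U : HeightOneSpectrum (𝓞 M'), algebraMap (𝓞 M) (𝓞 M') y ∈ U.asIdeal ↔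
      U.valuation M' (algebraMap M M' (y : M)) < 1 := by
    intro U
    have e2 : algebraMap M M' (y : M) = algebraMap (𝓞 M') M' (algebraMap (𝓞 M) (𝓞 M') y) := by
      rfl
    rw [e2, HeightOneSpectrum.valuation_lt_one_iff_mem]
  rw [e1, e1, ← h (algebraMap M M' (y : M)), AlgEquiv.commutes]

end primes

/-- L_SUB. -/
theorem l_sub : Pool.Agent.Helper77.RL.L_SUB := by
  intro p _ k _ _ L K M M' _ _ _ _ _ _ _ _ _ m n δ δ₁ P hL T₁ R al R' al' hR
  have hp : 0 < p := (Fact.out : p.Prime).pos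
  -- the elements `al' W`
  have al0 : ∀ W ∈ R', al' W ≠ 0 := by
    intro W hW
    obtain ⟨v, hv⟩ := exists_below (M := M) W
    have hvR := (hR.iff W v hv).1 hW
    rw [hR.al_eq W v hv hvR]
    intro h
    exact hR.ne v hvR ((map_eq_zero_iff _ (algebraMap M M').injective).1 h)
  refine ⟨{ carrier := {x | SelD L (above T₁ : Set (M' →+* k)) P δ₁ R' al' x}
            one_mem' := ?_
            mul_mem' := ?_
            inv_mem' := ?_ }, fun x ↦ Iff.rfl, ?_, ?_⟩
  · rintro x y ⟨hx1, hx2, hx3, hx4⟩ ⟨hy1, hy2, hy3, hy4⟩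
    refine ⟨?_, ?_, ?_, loc_mul L hx4 hy4⟩
    · obtain ⟨a, ha⟩ := hx1
      obtain ⟨b, hb⟩ := hy1
      exact ⟨a * b, by rw [map_mul, ha, hb, mul_pow]⟩
    · intro v hv
      rw [ordv_mul]
      exact dvd_add (hx2 v hv) (hy2 v hv)
    · intro v hv
      obtain ⟨i, hi⟩ := hx3 v hv
      obtain ⟨j, hj⟩ := hy3 v hv
      refine ⟨i + j, ?_⟩
      have h1 := locPow_mul hi hj
      have e : (x : M') * al' v ^ i * ((y : M') * al' v ^ j) =
          ((x * y : M'ˣ) : M') * al' v ^ (i + j) := by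
        rw [Units.val_mul, pow_add]
        ring
      rwa [e] at h1
  · refine ⟨⟨1, by rw [map_one, one_pow]⟩, ?_, ?_, loc_one L⟩
    · intro v _
      rw [ordv_one]
      exact dvd_zero _
    · intro v _
      refine ⟨0, ?_⟩
      have := locPow_pow (p := p) v (one_ne_zero (α := M'))
      rw [pow_zero, mul_one, Units.val_one]
      rwa [one_pow] at this
  · rintro x ⟨hx1, hx2, hx3, hx4⟩
    refine ⟨?_, ?_, ?_, loc_inv L hx4⟩
    · obtain ⟨a, ha⟩ := hx1
      exact ⟨a⁻¹, by rw [map_inv, ha, inv_pow]⟩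
    · intro v hv
      rw [ordv_inv]
      exact (dvd_neg).2 (hx2 v hv)
    · intro v hv
      obtain ⟨i, hi⟩ := hx3 v hv
      have h0 := al0 v hv
      refine ⟨(p - 1) * i, ?_⟩
      have h1 := locPow_inv hi
      refine locPow_mul_pow (c := (al' v ^ i)⁻¹) ?_
      have e : ((x⁻¹ : M'ˣ) : M') * al' v ^ ((p - 1) * i) * (al' v ^ i)⁻¹ ^ p =
          ((x : M') * al' v ^ i)⁻¹ := by
        have h2 : (al' v ^ i) ^ p = al' v ^ ((p - 1) * i) * al' v ^ i := by
          rw [← pow_mul, ← pow_add]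
          congr 1
          obtain ⟨q, rfl⟩ : ∃ q, p = q + 1 := ⟨p - 1, by omega⟩
          simp only [Nat.add_sub_cancel]
          ring
        rw [inv_pow, h2, Units.val_inv_eq_inv_val, mul_inv, mul_inv]
        have h3 : al' v ^ ((p - 1) * i) ≠ 0 := pow_ne_zero _ h0
        field_simp
      rwa [e]
  · rintro x ⟨y, rfl⟩
    refine ⟨⟨pol P δ₁ y, by rw [map_pow]⟩, ?_, ?_, loc_pow L y⟩
    · intro v _
      rw [ordv_pow]
      exact dvd_mul_right _ _
    · intro v _
      refine ⟨0, ?_⟩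
      rw [pow_zero, mul_one, Units.val_pow_eq_pow_val]
      exact locPow_pow v y.ne_zero
  · rintro g x ⟨hx1, hx2, hx3, hx4⟩
    refine ⟨?_, ?_, ?_, loc_delta L g hx4⟩
    · obtain ⟨a, ha⟩ := hx1
      refine ⟨Units.map ((g : M' →+* M') : M' →* M') a, ?_⟩
      have h1 := act_map (g : M' →+* M') δ₁ δ₁ (fun x ↦ hL.comm g x) (lift P) x
      rw [act_lift, act_lift] at h1
      rw [← h1, ha, map_pow]
    · intro W hW
      obtain ⟨W', -, hW'⟩ := exists_pull (K := M) g W
      obtain ⟨v, hv⟩ := exists_below (M := M) W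
      have hv' := above_pull g hW' hv
      have hWR : W' ∉ R' := by
        rw [hR.iff W' v hv', ← hR.iff W v hv]
        exact hW
      have h2 := hx2 W' hWR
      have e : ordv W ((Units.map ((g : M' →+* M') : M' →* M') x : M'ˣ) : M') =
          ordv W' (x : M') := by
        unfold ordv
        rw [← hW' (x : M')]
        rfl
      rwa [e]
    · intro W hW
      obtain ⟨W', -, hW'⟩ := exists_pull (K := M) g W
      obtain ⟨v, hv⟩ := exists_below (M := M) W
      have hv' := above_pull g hW' hv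
      have hvR : v ∈ R := (hR.iff W v hv).1 hW
      have hWR : W' ∈ R' := (hR.iff W' v hv').2 hvR
      obtain ⟨j, y, hy⟩ := hx3 W' hWR
      refine ⟨j, g y, ?_⟩
      rw [hR.al_eq W' v hv' hvR] at hy
      rw [hR.al_eq W v hv hvR]
      have e : ((Units.map ((g : M' →+* M') : M' →* M') x : M'ˣ) : M') *
          algebraMap M M' (al v) ^ j * (g y) ^ p - 1 =
          g ((x : M') * algebraMap M M' (al v) ^ j * y ^ p - 1) := by
        simp only [map_sub, map_mul, map_pow, map_one, AlgEquiv.commutes]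
        rfl
      rw [e, hW']
      exact hy

end Pool.Agent.Helper95.RL
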