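import Mathlib
import Pool.Agent.Helper18.RL.Goals

set_option autoImplicit false

/-!
Packet RL-ODP: an odd path through an odd side.
-/

namespace Pool.Agent.Helper95.RL

open Finset Pool.Agent.Helper37.RG3 Pool.Agent.Helper18.RL

theorem godp (hALT : G_ALT) : G_ODP := by
  intro V _ _ R K a b c hsymm hirr hab hac hbc haK hbK hcK h1 h2
  obtain ⟨m₁, hm₁⟩ := h1
  obtain ⟨m₂, hm₂⟩ := h2
  have hbP2 : b ∉ insert a K := by
    rw [mem_insert]
    rintro (h | h)
    · exact hab h.symm
    · exact hbK h
  have hcP2 : c ∉ insert a K := by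
    rw [mem_insert]
    rintro (h | h)
    · exact hac h.symm
    · exact hcK h
  obtain ⟨Q, hQ, hQs, -, hQc⟩ := hALT V R (insert a (insert b (insert c K))) (insert a K) m₁ m₂
    b c hirr hm₁ hm₂ (by simp) hbP2 hbc (by
      intro v hvb hvc
      simp only [mem_insert]
      tauto) (Or.inl ⟨by simp, hcP2⟩)
  have hev : Even Q.card := by
    rcases hQc with h | h
    · exact h.2
    · exact absurd h.1 hcP2
  have hsub : ∀ x ∈ Q, x = a ∨ x = b ∨ x = c ∨ x ∈ K := by
    intro x hx
    have h := hQs hx
    simp only [mem_union, mem_insert] at h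
    tauto
  by_cases haQ : a ∈ Q
  · obtain ⟨S₁, S₂, p, e, hd, k1, k2, k3⟩ := hQ.split haQ hab
    have hcard : Q.card = S₁.card + S₂.card := by
      rw [← e, card_union_of_disjoint hd]
    have hS1 : ∀ x ∈ S₁, x ∈ Q := fun x hx => by
      rw [← e]
      exact mem_union_left _ hx
    have hS2 : ∀ x ∈ S₂, x ∈ Q := fun x hx => by
      rw [← e]
      exact mem_union_right _ hx
    have haS1 : a ∉ S₁ := disjoint_right.mp hd k3.left_mem
    have hbS2 : b ∉ S₂ := disjoint_left.mp hd k1.left_mem
    have hcS1 : c ∉ S₁ := disjoint_right.mp hd k3.right_mem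
    rcases Nat.even_or_odd S₂.card with h | h
    · right
      left
      refine ⟨S₂, ?_, k3, h⟩
      intro x hx
      have h3 := hsub x (hS2 x hx)
      have h4 : x ≠ b := fun h => hbS2 (h ▸ hx)
      simp only [mem_insert]
      tauto
    · right
      right
      have h5 : Odd S₁.card := by
        rw [hcard] at hev
        exact (Nat.even_add'.mp hev).mpr h
      refine ⟨S₁ ∪ {a}, ?_, (k1.append k2 (.one a) (by simpa using haS1)).symm hsymm, ?_⟩
      · intro x hx
        rw [mem_union, mem_singleton] at hx
        simp only [mem_insert]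
        rcases hx with hx | hx
        · have h3 := hsub x (hS1 x hx)
          have h4 : x ≠ c := fun h => hcS1 (h ▸ hx)
          tauto
        · exact Or.inl hx
      · rw [card_union_of_disjoint (by simpa using haS1), card_singleton]
        exact h5.add_one
  · left
    refine ⟨Q, ?_, hQ, hev⟩
    intro x hx
    have h3 := hsub x hx
    have h4 : x ≠ a := fun h => haQ (h ▸ hx)
    simp only [mem_insert]
    tauto

end Pool.Agent.Helper95.RL
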